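import Pool.Agent.Y425.BF6.Tf
import Pool.Agent.T2h40.CW6.Cor6

set_option autoImplicit false
set_option linter.unusedSectionVars false

/-! # Nowhere-zero `Z_2^3`-flows with four lines: cubic graphs of carving width at most six

A finite graph, parallel edges allowed, has vertex set `V` and edge set `E`; the ends of the edge
`e` are `src e` and `dst e`. A carving is a binary tree whose leaves are labelled bijectively by the
vertices; its width is the largest number of edges that leave the set of the leaves of a subtree.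
The argument after the covers by six even subgraphs is that of the starting files TreewidthFour and
CutwidthSix on this problem. -/

namespace Pool.Agent.Results.MP_9b53a1_co.CarvingWidthSix

open Finset
open Pool.Agent.W420.BF (cut Tr)

/-- the edges at the vertex `v` -/
def star {V E : Type} [DecidableEq V] [Fintype E] (src dst : E → V) (v : V) : Finset E :=
  univ.filter fun e => src e = v ∨ dst e = v

/-- four of the seven lines of the Fano plane: the three lines through `(1,1,1)` and the line of the
three points with exactly one coordinate zero -/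
def fourLines : Finset (Finset (Fin 3 → ZMod 2)) :=
  {{![0, 0, 1], ![1, 1, 0], ![1, 1, 1]}, {![0, 1, 0], ![1, 0, 1], ![1, 1, 1]},
    {![1, 0, 0], ![0, 1, 1], ![1, 1, 1]}, {![0, 1, 1], ![1, 0, 1], ![1, 1, 0]}}

/-- the values at a vertex given by the three edges which the three matchings use -/
def P (t : Fin 3 → Fin 3) (j i : Fin 3) : ZMod 2 := if t i = j then 0 else 1

theorem line_P : ∀ t : Fin 3 → Fin 3, ¬ (t 0 = t 1 ∧ t 1 = t 2) →
    ({P t 0, P t 1, P t 2} : Finset (Fin 3 → ZMod 2)) ∈ fourLines ∧
      P t 0 + P t 1 + P t 2 = 0 ∧ ∀ j, P t j ≠ 0 := by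
  decide

def tt (x y : Fin 3 → ZMod 2) (i : Fin 3) : Fin 3 :=
  if x i = 0 then 0 else if y i = 0 then 1 else 2

theorem line_tt : ∀ x y z : Fin 3 → ZMod 2,
    ({x, y, z} : Finset (Fin 3 → ZMod 2)) ∈ fourLines →
      ¬ (tt x y 0 = tt x y 1 ∧ tt x y 1 = tt x y 2) ∧
        x = P (tt x y) 0 ∧ y = P (tt x y) 1 ∧ z = P (tt x y) 2 := by
  decide

/-- a choice of bits which separates the indices with equal values -/
theorem bits : ∀ t : Fin 3 → Fin 3, ¬ (t 0 = t 1 ∧ t 1 = t 2) →
    ∃ b : Fin 3 → Bool, ∀ i j, t i = t j → b i = b j → i = j := by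
  decide

/-- three matchings among six, one for each coordinate -/
theorem choose_three {u : Fin 6 → Fin 3} (hu : ∀ j, (univ.filter fun k => u k = j).card = 2)
    {t : Fin 3 → Fin 3} (ht : ¬ (t 0 = t 1 ∧ t 1 = t 2)) :
    ∃ σ : Fin 3 → Fin 6, Function.Injective σ ∧ ∀ i, u (σ i) = t i := by
  have h1 : ∀ j, ∃ a b : Fin 6, a ≠ b ∧ u a = j ∧ u b = j := by
    intro j
    obtain ⟨a, b, hab, h⟩ := card_eq_two.mp (hu j)
    refine ⟨a, b, hab, ?_, ?_⟩
    · have : a ∈ univ.filter fun k => u k = j := by rw [h]; simp
      exact (mem_filter.mp this).2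
    · have : b ∈ univ.filter fun k => u k = j := by rw [h]; simp
      exact (mem_filter.mp this).2
  choose α β h2 h3 h4 using h1
  obtain ⟨b, hb⟩ := bits t ht
  have h5 : ∀ i, u (if b i then β (t i) else α (t i)) = t i := by
    intro i
    by_cases h : b i
    · rw [if_pos h]; exact h4 _
    · rw [if_neg h]; exact h3 _
  refine ⟨fun i => if b i then β (t i) else α (t i), fun i j hij => ?_, h5⟩
  have h6 : t i = t j := by
    rw [← h5 i, ← h5 j]; exact congrArg u hij
  apply hb i j h6
  have h7 : (if b i then β (t i) else α (t i)) = (if b j then β (t j) else α (t j)) := hij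
  rw [h6] at h7
  cases hi : b i <;> cases hj : b j
  · rfl
  · rw [hi, hj] at h7
    exact absurd h7 (h2 _)
  · rw [hi, hj] at h7
    exact absurd h7.symm (h2 _)
  · rfl

section Graph

variable {V E : Type} [Fintype V] [DecidableEq V] [Fintype E] [DecidableEq E] {src dst : E → V}

open Pool.Agent.Y425.BF6.Tf (dg compl6)

theorem dg_card (hl : ∀ e, src e ≠ dst e) (F : Finset E) (v : V) :
    dg src dst F v = (F.filter fun e => e ∈ star src dst v).card := by
  unfold dg
  rw [card_filter]
  refine sum_congr rfl fun e _ => ?_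
  have h := hl e
  simp only [star, mem_filter, mem_univ, true_and]
  by_cases h1 : src e = v <;> by_cases h2 : dst e = v
  · exact absurd (h1.trans h2.symm) h
  · simp [h1, h2]
  · simp [h1, h2]
  · simp [h1, h2]

/-- the edges at a vertex and the edge which each matching uses there -/
theorem at_vertex (hl : ∀ e, src e ≠ dst e) (hc : ∀ v, (star src dst v).card = 3)
    {C : Fin 6 → Finset E} (h1 : ∀ i v, Even (dg src dst (C i) v))
    (h2 : ∀ e, (univ.filter fun i => e ∈ C i).card = 4) (v : V) :
    ∃ (a : Fin 3 → E) (u : Fin 6 → Fin 3), Function.Injective a ∧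
      star src dst v = univ.image a ∧ (∀ k j, a j ∈ C k ↔ u k ≠ j) ∧
      ∀ j, (univ.filter fun k => u k = j).card = 2 := by
  have h3 : ∀ v, dg src dst univ v = 3 := by
    intro v
    rw [dg_card hl, ← hc v]
    congr 1
    ext e
    simp
  obtain ⟨h4, h5⟩ := compl6 h1 h2 h3
  obtain ⟨x, y, z, hxy, hxz, hyz, hs⟩ := card_eq_three.mp (hc v)
  have ha : Function.Injective ![x, y, z] := by
    intro i j
    fin_cases i <;> fin_cases j <;> simp [hxy, hxz, hyz, hxy.symm, hxz.symm, hyz.symm]
  have hst : star src dst v = univ.image ![x, y, z] := by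
    rw [hs]
    ext e
    simp only [mem_insert, mem_singleton, mem_image, mem_univ, true_and, Fin.exists_fin_succ,
      Matrix.cons_val_zero, Matrix.cons_val_succ, IsEmpty.exists_iff, or_false]
    constructor
    · rintro (rfl | rfl | rfl)
      · exact Or.inl rfl
      · exact Or.inr (Or.inl rfl)
      · exact Or.inr (Or.inr rfl)
    · rintro (rfl | rfl | rfl)
      · exact Or.inl rfl
      · exact Or.inr (Or.inl rfl)
      · exact Or.inr (Or.inr rfl)
  have h6 : ∀ k, ∃ j : Fin 3, ∀ j', ![x, y, z] j' ∈ C k ↔ j ≠ j' := by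
    intro k
    have h7 := h4 k v
    rw [dg_card hl] at h7
    obtain ⟨e, he⟩ := card_eq_one.mp h7
    have h8 : e ∈ (univ \ C k).filter fun e => e ∈ star src dst v := by rw [he]; simp
    rw [mem_filter, mem_sdiff] at h8
    have h9 : e ∈ univ.image ![x, y, z] := by rw [← hst]; exact h8.2
    obtain ⟨j, _, hj⟩ := mem_image.mp h9
    refine ⟨j, fun j' => ⟨fun h10 h11 => ?_, fun h10 => ?_⟩⟩
    · rw [← h11, hj] at h10
      exact h8.1.2 h10
    · by_contra h11
      have h12 : ![x, y, z] j' ∈ (univ \ C k).filter fun e => e ∈ star src dst v := by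
        rw [mem_filter, mem_sdiff]
        refine ⟨⟨mem_univ _, h11⟩, ?_⟩
        rw [hst]
        exact mem_image_of_mem _ (mem_univ _)
      rw [he, mem_singleton, ← hj] at h12
      exact h10 (ha h12).symm
  choose u hu using h6
  refine ⟨![x, y, z], u, ha, hst, hu, fun j => ?_⟩
  rw [← h5 (![x, y, z] j)]
  congr 1
  ext k
  simp only [mem_filter, mem_univ, true_and, mem_sdiff]
  rw [hu k j, not_not]

/-- **Theorem.** Let `G` be a finite cubic graph without loops such that no set of vertices is left
by exactly one edge (no bridges) and that some binary tree `T` whose leaves are labelled bijectively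
by the vertices has width at most six: for each subtree at most six edges leave the set of its
leaves. Let the three edges at a vertex `v₀` be assigned to the three points of one of the four lines
in `fourLines`. Then this assignment extends to a nowhere-zero `Z_2^3`-flow of `G` such that at every
vertex the values form one of the four lines. -/
theorem result (V E : Type) [Fintype V] [DecidableEq V] [Fintype E] [DecidableEq E]
    (src dst : E → V) (hl : ∀ e, src e ≠ dst e) (hc : ∀ v, (star src dst v).card = 3)
    (hb : ∀ Z : Set V, (cut src dst Z).card ≠ 1)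
    (hw : ∃ T : Tr V, T.set = Set.univ ∧ T.Nodup ∧ T.Width src dst 6)
    (v₀ : V) (g : E → Fin 3 → ZMod 2) (hg : (star src dst v₀).image g ∈ fourLines) :
    ∃ f : E → Fin 3 → ZMod 2, (∀ e, f e ≠ 0) ∧ (∀ v, ∑ e ∈ star src dst v, f e = 0) ∧
      (∀ v, (star src dst v).image f ∈ fourLines) ∧ ∀ e ∈ star src dst v₀, f e = g e := by
  -- six even subgraphs
  obtain ⟨C, hC, h4⟩ := Pool.Agent.T2h40.CW6.six_cvw src dst hb hw
  -- the three matchings
  obtain ⟨a, u, ha, hst, hu, hu2⟩ := at_vertex hl hc hC h4 v₀
  have hg2 : ({g (a 0), g (a 1), g (a 2)} : Finset (Fin 3 → ZMod 2)) ∈ fourLines := by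
    have : (star src dst v₀).image g = {g (a 0), g (a 1), g (a 2)} := by
      rw [hst, image_image]
      ext p
      simp only [mem_image, mem_univ, true_and, Function.comp, Fin.exists_fin_succ, mem_insert,
        mem_singleton, IsEmpty.exists_iff, or_false]
      constructor
      · rintro (h | h | h)
        · exact Or.inl h.symm
        · exact Or.inr (Or.inl h.symm)
        · exact Or.inr (Or.inr h.symm)
      · rintro (h | h | h)
        · exact Or.inl h.symm
        · exact Or.inr (Or.inl h.symm)
        · exact Or.inr (Or.inr h.symm)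
    rw [← this]
    exact hg
  obtain ⟨g0, g1, g2, g3⟩ := line_tt _ _ _ hg2
  obtain ⟨σ, hσ, hσt⟩ := choose_three hu2 g0
  -- the values of the flow at a vertex
  have key : ∀ (b : Fin 3 → E) (w : Fin 6 → Fin 3), (∀ k j, b j ∈ C k ↔ w k ≠ j) → ∀ j,
      (fun i => if b j ∈ C (σ i) then (1 : ZMod 2) else 0) = P (fun i => w (σ i)) j := by
    intro b w hw j
    funext i
    unfold P
    by_cases h : w (σ i) = j
    · rw [if_pos h, if_neg]
      rw [hw]; exact fun h' => h' h
    · rw [if_neg h, if_pos]
      rw [hw]; exact h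
  have hconst : ∀ (w : Fin 6 → Fin 3), (∀ j, (univ.filter fun k => w k = j).card = 2) →
      ¬ (w (σ 0) = w (σ 1) ∧ w (σ 1) = w (σ 2)) := by
    rintro w hw ⟨h1, h2⟩
    have h3 := hw (w (σ 2))
    have h5 : ({σ 0, σ 1, σ 2} : Finset (Fin 6)) ⊆ univ.filter fun k => w k = w (σ 2) := by
      intro k hk
      simp only [mem_insert, mem_singleton] at hk
      rw [mem_filter]
      refine ⟨mem_univ _, ?_⟩
      rcases hk with rfl | rfl | rfl
      · exact h1.trans h2
      · exact h2
      · rfl
    have h6 := card_le_card h5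
    rw [h3] at h6
    have h7 : ({σ 0, σ 1, σ 2} : Finset (Fin 6)).card = 3 := by
      rw [card_eq_three]
      exact ⟨_, _, _, fun h => absurd (hσ h) (by decide), fun h => absurd (hσ h) (by decide),
        fun h => absurd (hσ h) (by decide), rfl⟩
    omega
  have hstar : ∀ v, ∃ (b : Fin 3 → E) (t : Fin 3 → Fin 3), Function.Injective b ∧
      star src dst v = univ.image b ∧ ¬ (t 0 = t 1 ∧ t 1 = t 2) ∧
      ∀ j, (fun i => if b j ∈ C (σ i) then (1 : ZMod 2) else 0) = P t j := by
    intro v
    obtain ⟨b, w, h1, h2, h3, h5⟩ := at_vertex hl hc hC h4 v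
    exact ⟨b, fun i => w (σ i), h1, h2, hconst w h5, key b w h3⟩
  refine ⟨fun e i => if e ∈ C (σ i) then 1 else 0, fun e => ?_, fun v => ?_, fun v => ?_,
    fun e he => ?_⟩
  · obtain ⟨b, t, h1, h2, h3, h5⟩ := hstar (src e)
    have h6 : e ∈ univ.image b := by rw [← h2]; simp [star]
    obtain ⟨j, _, rfl⟩ := mem_image.mp h6
    change (fun i => if b j ∈ C (σ i) then (1 : ZMod 2) else 0) ≠ 0
    rw [h5 j]
    exact (line_P t h3).2.2 j
  · obtain ⟨b, t, h1, h2, h3, h5⟩ := hstar v
    rw [h2, sum_image fun x _ y _ h => h1 h, Fin.sum_univ_three, h5, h5, h5]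
    exact (line_P t h3).2.1
  · obtain ⟨b, t, h1, h2, h3, h5⟩ := hstar v
    have h6 : (star src dst v).image (fun e i => if e ∈ C (σ i) then (1 : ZMod 2) else 0) =
        {P t 0, P t 1, P t 2} := by
      rw [h2, image_image, ← h5 0, ← h5 1, ← h5 2]
      ext p
      simp only [mem_image, mem_univ, true_and, Function.comp, Fin.exists_fin_succ, mem_insert,
        mem_singleton, IsEmpty.exists_iff, or_false]
      constructor
      · rintro (h | h | h)
        · exact Or.inl h.symm
        · exact Or.inr (Or.inl h.symm)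
        · exact Or.inr (Or.inr h.symm)
      · rintro (h | h | h)
        · exact Or.inl h.symm
        · exact Or.inr (Or.inl h.symm)
        · exact Or.inr (Or.inr h.symm)
    rw [h6]
    exact (line_P t h3).1
  · rw [hst] at he
    obtain ⟨j, _, rfl⟩ := mem_image.mp he
    have h6 : (fun i => u (σ i)) = tt (g (a 0)) (g (a 1)) := funext hσt
    change (fun i => if a j ∈ C (σ i) then (1 : ZMod 2) else 0) = g (a j)
    rw [key a u hu j, h6]
    fin_cases j
    · exact g1.symm
    · exact g2.symm
    · exact g3.symm

end Graph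

end Pool.Agent.Results.MP_9b53a1_co.CarvingWidthSix
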