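import Pool.Agent.R926.SC.SixCor

set_option autoImplicit false
set_option linter.unusedSectionVars false

/-! # Nowhere-zero `Z_2^3`-flows with four lines: cubic graphs with few odd pieces

A finite graph, parallel edges allowed, has vertex set `V` and edge set `E`; the ends of the edge
`e` are `src e` and `dst e`.  Let `C_1, ..., C_m` be sets of edges of a bridgeless cubic graph `G`,
such that each `C_i` has at most four edges outside the union of the earlier ones and no bridge
modulo this union (circuits, or open or closed ears), or contains two disjoint sets each of which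
connects all that `C_i` connects modulo this union.  Let `F` be their union, and assume that at most
sixteen components of the graph `(V, F)` have an odd number of boundary edges in `G`.  Then `G` has a
nowhere-zero flow with values in `Z_2^3` such that the values at the vertices form four lines of the
Fano plane; moreover, the values at one vertex can be prescribed.

By the starting files (`R926/SC`) `G` has six even subgraphs such that each edge is in exactly four of
them; their complements are perfect matchings.  The flow is given by three of the six even subgraphs,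
and the choice of the three depends on the values which are prescribed. -/

namespace Pool.Agent.Results.MP_9b53a1_co.SixteenOddPieces

open Finset

/-- The edges with exactly one end in `Y`. -/
def boundary {V E : Type} [DecidableEq V] [Fintype E] (s t : E → V) (Y : Finset V) : Finset E :=
  Finset.univ.filter (fun e => ¬ (s e ∈ Y ↔ t e ∈ Y))

/-- The component of `x` in the graph with the vertices `V` and the edges `F`. -/
noncomputable def component {V E : Type} [Fintype V] (s t : E → V) (F : Finset E) (x : V) :
    Finset V :=
  open Classical in Finset.univ.filter (fun y =>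
    Relation.EqvGen (fun a b => ∃ e ∈ F, s e = a ∧ t e = b) x y)

/-- The union of the sets `C j` with `j < i`. -/
def earlier {E : Type} [DecidableEq E] {m : ℕ} (C : Fin m → Finset E) (i : Fin m) : Finset E :=
  (Finset.univ.filter (fun j => j < i)).biUnion C

/-- `H` can be added to the chain after `F`: either (short) `H` has at most four edges outside `F`
and no bridge modulo `F`: no set `Y` of vertices without boundary edges in `F` has exactly one
boundary edge in `H`; or (doubly connected) `H` contains two disjoint sets each of which connects,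
modulo `F`, whatever `H` connects: every set `Y` of vertices without boundary edges in `F` and with
a boundary edge in `H` has boundary edges in both sets. -/
def Step {V E : Type} [DecidableEq V] [Fintype E] [DecidableEq E] (s t : E → V)
    (F H : Finset E) : Prop :=
  ((H \ F).card ≤ 4 ∧ ∀ Y : Finset V, Disjoint (boundary s t Y) F →
    (boundary s t Y ∩ H).card ≠ 1) ∨
  ∃ T₁ T₂ : Finset E, T₁ ⊆ H ∧ T₂ ⊆ H ∧ Disjoint T₁ T₂ ∧ ∀ Y : Finset V,
    Disjoint (boundary s t Y) F → ¬ Disjoint (boundary s t Y) H →
      ¬ Disjoint (boundary s t Y) T₁ ∧ ¬ Disjoint (boundary s t Y) T₂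

/-- the edges at the vertex `v` -/
def star {V E : Type} [DecidableEq V] [Fintype E] (src dst : E → V) (v : V) : Finset E :=
  univ.filter fun e => src e = v ∨ dst e = v

/-- four of the seven lines of the Fano plane: the three lines through `(1,1,1)` and the line of the
three points with exactly one coordinate zero -/
def fourLines : Finset (Finset (Fin 3 → ZMod 2)) :=
  {{![0, 0, 1], ![1, 1, 0], ![1, 1, 1]}, {![0, 1, 0], ![1, 0, 1], ![1, 1, 1]},
    {![1, 0, 0], ![0, 1, 1], ![1, 1, 1]}, {![0, 1, 1], ![1, 0, 1], ![1, 1, 0]}}

/-- the values at a vertex given by the three edges which the three matchings use -/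
def P (t : Fin 3 → Fin 3) (j i : Fin 3) : ZMod 2 := if t i = j then 0 else 1

theorem line_P : ∀ t : Fin 3 → Fin 3, ¬ (t 0 = t 1 ∧ t 1 = t 2) →
    ({P t 0, P t 1, P t 2} : Finset (Fin 3 → ZMod 2)) ∈ fourLines ∧
      P t 0 + P t 1 + P t 2 = 0 ∧ ∀ j, P t j ≠ 0 := by
  decide

def tt (x y : Fin 3 → ZMod 2) (i : Fin 3) : Fin 3 :=
  if x i = 0 then 0 else if y i = 0 then 1 else 2

theorem line_tt : ∀ x y z : Fin 3 → ZMod 2,
    ({x, y, z} : Finset (Fin 3 → ZMod 2)) ∈ fourLines →
      ¬ (tt x y 0 = tt x y 1 ∧ tt x y 1 = tt x y 2) ∧
        x = P (tt x y) 0 ∧ y = P (tt x y) 1 ∧ z = P (tt x y) 2 := by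
  decide

/-- a choice of bits which separates the indices with equal values -/
theorem bits : ∀ t : Fin 3 → Fin 3, ¬ (t 0 = t 1 ∧ t 1 = t 2) →
    ∃ b : Fin 3 → Bool, ∀ i j, t i = t j → b i = b j → i = j := by
  decide

/-- three matchings among six, one for each coordinate -/
theorem choose_three {u : Fin 6 → Fin 3} (hu : ∀ j, (univ.filter fun k => u k = j).card = 2)
    {t : Fin 3 → Fin 3} (ht : ¬ (t 0 = t 1 ∧ t 1 = t 2)) :
    ∃ σ : Fin 3 → Fin 6, Function.Injective σ ∧ ∀ i, u (σ i) = t i := by
  have h1 : ∀ j, ∃ a b : Fin 6, a ≠ b ∧ u a = j ∧ u b = j := by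
    intro j
    obtain ⟨a, b, hab, h⟩ := card_eq_two.mp (hu j)
    refine ⟨a, b, hab, ?_, ?_⟩
    · have : a ∈ univ.filter fun k => u k = j := by rw [h]; simp
      exact (mem_filter.mp this).2
    · have : b ∈ univ.filter fun k => u k = j := by rw [h]; simp
      exact (mem_filter.mp this).2
  choose α β h2 h3 h4 using h1
  obtain ⟨b, hb⟩ := bits t ht
  have h5 : ∀ i, u (if b i then β (t i) else α (t i)) = t i := by
    intro i
    by_cases h : b i
    · rw [if_pos h]; exact h4 _
    · rw [if_neg h]; exact h3 _
  refine ⟨fun i => if b i then β (t i) else α (t i), fun i j hij => ?_, h5⟩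
  have h6 : t i = t j := by
    rw [← h5 i, ← h5 j]; exact congrArg u hij
  apply hb i j h6
  have h7 : (if b i then β (t i) else α (t i)) = (if b j then β (t j) else α (t j)) := hij
  rw [h6] at h7
  cases hi : b i <;> cases hj : b j
  · rfl
  · rw [hi, hj] at h7
    exact absurd h7 (h2 _)
  · rw [hi, hj] at h7
    exact absurd h7.symm (h2 _)
  · rfl

section Graph

variable {V E : Type} [Fintype V] [DecidableEq V] [Fintype E] [DecidableEq E] {src dst : E → V}

/-- the degree of `v` in the set of edges `F`, where a loop counts twice -/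
def dg (src dst : E → V) (F : Finset E) (v : V) : ℕ :=
  ∑ e ∈ F, ((if src e = v then 1 else 0) + (if dst e = v then 1 else 0))

/-- the complements of six even subgraphs in a cubic graph -/
theorem compl6 {C : Fin 6 → Finset E} (h1 : ∀ i v, Even (dg src dst (C i) v))
    (h2 : ∀ e, (univ.filter fun i => e ∈ C i).card = 4) (h3 : ∀ v, dg src dst univ v = 3) :
    (∀ i v, dg src dst (univ \ C i) v = 1) ∧
      ∀ e, (univ.filter fun i => e ∈ univ \ C i).card = 2 := by
  have hM : ∀ e, (univ.filter fun i => e ∈ univ \ C i).card = 2 := by
    intro e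
    have h4 := h2 e
    have h5 : (univ.filter fun i => e ∈ univ \ C i).card + (univ.filter fun i => e ∈ C i).card =
        6 := by
      rw [← card_union_of_disjoint]
      · have : (univ.filter fun i => e ∈ univ \ C i) ∪ (univ.filter fun i => e ∈ C i) = univ := by
          ext i
          simp only [mem_union, mem_filter, mem_univ, true_and, mem_sdiff]
          tauto
        rw [this, card_univ, Fintype.card_fin]
      · rw [disjoint_left]
        intro i h6 h7
        rw [mem_filter, mem_sdiff] at h6
        rw [mem_filter] at h7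
        exact h6.2.2 h7.2
    omega
  refine ⟨fun i v => ?_, hM⟩
  -- the complement of each even subgraph has odd degrees
  have h4 : ∀ j, 1 ≤ dg src dst (univ \ C j) v := by
    intro j
    have h5 : dg src dst (univ \ C j) v + dg src dst (C j) v = 3 := by
      rw [← h3 v]
      unfold dg
      exact sum_sdiff (subset_univ _)
    obtain ⟨k, hk⟩ : Even (dg src dst (C j) v) := h1 j v
    omega
  -- the sum of the six degrees is six
  have h5 : ∑ j, dg src dst (univ \ C j) v = 6 := by
    have h6 : ∀ j, dg src dst (univ \ C j) v = ∑ e, if e ∈ univ \ C j then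
        ((if src e = v then 1 else 0) + (if dst e = v then 1 else 0)) else 0 := by
      intro j
      unfold dg
      rw [sum_ite_mem, univ_inter]
    rw [sum_congr rfl fun j _ => h6 j, sum_comm]
    have h7 : ∀ e, (∑ j, if e ∈ univ \ C j then
        ((if src e = v then 1 else 0) + (if dst e = v then 1 else 0)) else 0) =
        2 * ((if src e = v then 1 else 0) + (if dst e = v then 1 else 0)) := by
      intro e
      rw [← sum_filter, sum_const, hM e, smul_eq_mul]
    rw [sum_congr rfl fun e _ => h7 e, ← mul_sum]
    have h8 : dg src dst univ v = 3 := h3 v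
    unfold dg at h8
    rw [h8]
    norm_num
  have h6 : dg src dst (univ \ C i) v + ∑ j ∈ univ.erase i, dg src dst (univ \ C j) v =
      ∑ j, dg src dst (univ \ C j) v :=
    add_sum_erase univ (fun j => dg src dst (univ \ C j) v) (mem_univ i)
  have h7 : 5 ≤ ∑ j ∈ univ.erase i, dg src dst (univ \ C j) v := by
    have h8 := card_nsmul_le_sum (univ.erase i) (fun j => dg src dst (univ \ C j) v) 1
      (fun j _ => h4 j)
    rw [card_erase_of_mem (mem_univ _), card_univ, Fintype.card_fin] at h8
    simpa using h8
  have h8 := h4 i
  change dg src dst (univ \ C i) v = 1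
  omega

theorem dg_card (hl : ∀ e, src e ≠ dst e) (F : Finset E) (v : V) :
    dg src dst F v = (F.filter fun e => e ∈ star src dst v).card := by
  unfold dg
  rw [card_filter]
  refine sum_congr rfl fun e _ => ?_
  have h := hl e
  simp only [star, mem_filter, mem_univ, true_and]
  by_cases h1 : src e = v <;> by_cases h2 : dst e = v
  · exact absurd (h1.trans h2.symm) h
  · simp [h1, h2]
  · simp [h1, h2]
  · simp [h1, h2]

/-- the edges at a vertex and the edge which each matching uses there -/
theorem at_vertex (hl : ∀ e, src e ≠ dst e) (hc : ∀ v, (star src dst v).card = 3)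
    {C : Fin 6 → Finset E} (h1 : ∀ i v, Even (dg src dst (C i) v))
    (h2 : ∀ e, (univ.filter fun i => e ∈ C i).card = 4) (v : V) :
    ∃ (a : Fin 3 → E) (u : Fin 6 → Fin 3), Function.Injective a ∧
      star src dst v = univ.image a ∧ (∀ k j, a j ∈ C k ↔ u k ≠ j) ∧
      ∀ j, (univ.filter fun k => u k = j).card = 2 := by
  have h3 : ∀ v, dg src dst univ v = 3 := by
    intro v
    rw [dg_card hl, ← hc v]
    congr 1
    ext e
    simp
  obtain ⟨h4, h5⟩ := compl6 h1 h2 h3
  obtain ⟨x, y, z, hxy, hxz, hyz, hs⟩ := card_eq_three.mp (hc v)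
  have ha : Function.Injective ![x, y, z] := by
    intro i j
    fin_cases i <;> fin_cases j <;> simp [hxy, hxz, hyz, hxy.symm, hxz.symm, hyz.symm]
  have hst : star src dst v = univ.image ![x, y, z] := by
    rw [hs]
    ext e
    simp only [mem_insert, mem_singleton, mem_image, mem_univ, true_and, Fin.exists_fin_succ,
      Matrix.cons_val_zero, Matrix.cons_val_succ, IsEmpty.exists_iff, or_false]
    constructor
    · rintro (rfl | rfl | rfl)
      · exact Or.inl rfl
      · exact Or.inr (Or.inl rfl)
      · exact Or.inr (Or.inr rfl)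
    · rintro (rfl | rfl | rfl)
      · exact Or.inl rfl
      · exact Or.inr (Or.inl rfl)
      · exact Or.inr (Or.inr rfl)
  have h6 : ∀ k, ∃ j : Fin 3, ∀ j', ![x, y, z] j' ∈ C k ↔ j ≠ j' := by
    intro k
    have h7 := h4 k v
    rw [dg_card hl] at h7
    obtain ⟨e, he⟩ := card_eq_one.mp h7
    have h8 : e ∈ (univ \ C k).filter fun e => e ∈ star src dst v := by rw [he]; simp
    rw [mem_filter, mem_sdiff] at h8
    have h9 : e ∈ univ.image ![x, y, z] := by rw [← hst]; exact h8.2
    obtain ⟨j, _, hj⟩ := mem_image.mp h9
    refine ⟨j, fun j' => ⟨fun h10 h11 => ?_, fun h10 => ?_⟩⟩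
    · rw [← h11, hj] at h10
      exact h8.1.2 h10
    · by_contra h11
      have h12 : ![x, y, z] j' ∈ (univ \ C k).filter fun e => e ∈ star src dst v := by
        rw [mem_filter, mem_sdiff]
        refine ⟨⟨mem_univ _, h11⟩, ?_⟩
        rw [hst]
        exact mem_image_of_mem _ (mem_univ _)
      rw [he, mem_singleton, ← hj] at h12
      exact h10 (ha h12).symm
  choose u hu using h6
  refine ⟨![x, y, z], u, ha, hst, hu, fun j => ?_⟩
  rw [← h5 (![x, y, z] j)]
  congr 1
  ext k
  simp only [mem_filter, mem_univ, true_and, mem_sdiff]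
  rw [hu k j, not_not]

/-- **Theorem.** Let `G` be a finite cubic graph without loops such that no set of vertices is left
by exactly one edge (no bridges), and `D 0, ..., D (m - 1)` sets of edges such that each `D i` can be
added after the union of the earlier ones (`Step`: at most four new edges and no bridge, or two
disjoint connectors).  Let at most sixteen components of the graph with the vertices of `G`, whose
edges are the elements of the sets `D i`, have an odd number of boundary edges.  Let the three edges
at a vertex `v₀` be assigned to the three points of one of the four lines in `fourLines`. Then this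
assignment extends to a nowhere-zero `Z_2^3`-flow of `G` such that at every vertex the values form one
of the four lines. -/
theorem result (V E : Type) [Fintype V] [DecidableEq V] [Fintype E] [DecidableEq E]
    (src dst : E → V) (hl : ∀ e, src e ≠ dst e) (hc : ∀ v, (star src dst v).card = 3)
    (hb : ∀ Y : Finset V, (boundary src dst Y).card ≠ 1) (m : ℕ) (D : Fin m → Finset E)
    (hD : ∀ i, Step src dst (earlier D i) (D i))
    (hodd : ((Finset.univ.image (component src dst (Finset.univ.biUnion D))).filter
      (fun X => Odd (boundary src dst X).card)).card ≤ 16)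
    (v₀ : V) (g : E → Fin 3 → ZMod 2) (hg : (star src dst v₀).image g ∈ fourLines) :
    ∃ f : E → Fin 3 → ZMod 2, (∀ e, f e ≠ 0) ∧ (∀ v, ∑ e ∈ star src dst v, f e = 0) ∧
      (∀ v, (star src dst v).image f ∈ fourLines) ∧ ∀ e ∈ star src dst v₀, f e = g e := by
  -- six even subgraphs
  obtain ⟨C, hC, h4⟩ := Pool.Agent.R926.SC.Cor.six_chain src dst hb m D
    (Pool.Agent.R926.SC.st_of src dst m D hD) hodd
  -- the three matchings
  obtain ⟨a, u, ha, hst, hu, hu2⟩ := at_vertex hl hc hC h4 v₀
  have hg2 : ({g (a 0), g (a 1), g (a 2)} : Finset (Fin 3 → ZMod 2)) ∈ fourLines := by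
    have : (star src dst v₀).image g = {g (a 0), g (a 1), g (a 2)} := by
      rw [hst, image_image]
      ext p
      simp only [mem_image, mem_univ, true_and, Function.comp, Fin.exists_fin_succ, mem_insert,
        mem_singleton, IsEmpty.exists_iff, or_false]
      constructor
      · rintro (h | h | h)
        · exact Or.inl h.symm
        · exact Or.inr (Or.inl h.symm)
        · exact Or.inr (Or.inr h.symm)
      · rintro (h | h | h)
        · exact Or.inl h.symm
        · exact Or.inr (Or.inl h.symm)
        · exact Or.inr (Or.inr h.symm)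
    rw [← this]
    exact hg
  obtain ⟨g0, g1, g2, g3⟩ := line_tt _ _ _ hg2
  obtain ⟨σ, hσ, hσt⟩ := choose_three hu2 g0
  -- the values of the flow at a vertex
  have key : ∀ (b : Fin 3 → E) (w : Fin 6 → Fin 3), (∀ k j, b j ∈ C k ↔ w k ≠ j) → ∀ j,
      (fun i => if b j ∈ C (σ i) then (1 : ZMod 2) else 0) = P (fun i => w (σ i)) j := by
    intro b w hw j
    funext i
    unfold P
    by_cases h : w (σ i) = j
    · rw [if_pos h, if_neg]
      rw [hw]; exact fun h' => h' h
    · rw [if_neg h, if_pos]
      rw [hw]; exact h
  have hconst : ∀ (w : Fin 6 → Fin 3), (∀ j, (univ.filter fun k => w k = j).card = 2) →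
      ¬ (w (σ 0) = w (σ 1) ∧ w (σ 1) = w (σ 2)) := by
    rintro w hw ⟨h1, h2⟩
    have h3 := hw (w (σ 2))
    have h5 : ({σ 0, σ 1, σ 2} : Finset (Fin 6)) ⊆ univ.filter fun k => w k = w (σ 2) := by
      intro k hk
      simp only [mem_insert, mem_singleton] at hk
      rw [mem_filter]
      refine ⟨mem_univ _, ?_⟩
      rcases hk with rfl | rfl | rfl
      · exact h1.trans h2
      · exact h2
      · rfl
    have h6 := card_le_card h5
    rw [h3] at h6
    have h7 : ({σ 0, σ 1, σ 2} : Finset (Fin 6)).card = 3 := by
      rw [card_eq_three]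
      exact ⟨_, _, _, fun h => absurd (hσ h) (by decide), fun h => absurd (hσ h) (by decide),
        fun h => absurd (hσ h) (by decide), rfl⟩
    omega
  have hstar : ∀ v, ∃ (b : Fin 3 → E) (t : Fin 3 → Fin 3), Function.Injective b ∧
      star src dst v = univ.image b ∧ ¬ (t 0 = t 1 ∧ t 1 = t 2) ∧
      ∀ j, (fun i => if b j ∈ C (σ i) then (1 : ZMod 2) else 0) = P t j := by
    intro v
    obtain ⟨b, w, h1, h2, h3, h5⟩ := at_vertex hl hc hC h4 v
    exact ⟨b, fun i => w (σ i), h1, h2, hconst w h5, key b w h3⟩
  refine ⟨fun e i => if e ∈ C (σ i) then 1 else 0, fun e => ?_, fun v => ?_, fun v => ?_,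
    fun e he => ?_⟩
  · obtain ⟨b, t, h1, h2, h3, h5⟩ := hstar (src e)
    have h6 : e ∈ univ.image b := by rw [← h2]; simp [star]
    obtain ⟨j, _, rfl⟩ := mem_image.mp h6
    change (fun i => if b j ∈ C (σ i) then (1 : ZMod 2) else 0) ≠ 0
    rw [h5 j]
    exact (line_P t h3).2.2 j
  · obtain ⟨b, t, h1, h2, h3, h5⟩ := hstar v
    rw [h2, sum_image fun x _ y _ h => h1 h, Fin.sum_univ_three, h5, h5, h5]
    exact (line_P t h3).2.1
  · obtain ⟨b, t, h1, h2, h3, h5⟩ := hstar v
    have h6 : (star src dst v).image (fun e i => if e ∈ C (σ i) then (1 : ZMod 2) else 0) =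
        {P t 0, P t 1, P t 2} := by
      rw [h2, image_image, ← h5 0, ← h5 1, ← h5 2]
      ext p
      simp only [mem_image, mem_univ, true_and, Function.comp, Fin.exists_fin_succ, mem_insert,
        mem_singleton, IsEmpty.exists_iff, or_false]
      constructor
      · rintro (h | h | h)
        · exact Or.inl h.symm
        · exact Or.inr (Or.inl h.symm)
        · exact Or.inr (Or.inr h.symm)
      · rintro (h | h | h)
        · exact Or.inl h.symm
        · exact Or.inr (Or.inl h.symm)
        · exact Or.inr (Or.inr h.symm)
    rw [h6]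
    exact (line_P t h3).1
  · rw [hst] at he
    obtain ⟨j, _, rfl⟩ := mem_image.mp he
    have h6 : (fun i => u (σ i)) = tt (g (a 0)) (g (a 1)) := funext hσt
    change (fun i => if a j ∈ C (σ i) then (1 : ZMod 2) else 0) = g (a j)
    rw [key a u hu j, h6]
    fin_cases j
    · exact g1.symm
    · exact g2.symm
    · exact g3.symm

end Graph

end Pool.Agent.Results.MP_9b53a1_co.SixteenOddPieces
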